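import Pool.Agent.H515R3.PMLow

/-!
# Randomized k-page migration is as hard as randomized k-server up to the factor 3

`R k` is the optimal randomized competitive ratio (oblivious adversary, all metric spaces, all
`D ≥ 1`) of `k`-page migration and `S k` the one of the `k`-server problem. We prove
`S k ≤ R k ≤ 3 * S k` for every `k ≥ 1`, so `R k = o(k)` if and only if `S k = o(k)`.

Upper bound: forward every request with probability `1 / (2 D)` to a `k`-server algorithm.
Lower bound: repeat every request `2 D` times, look at the page migration algorithm at a random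
time of every block, and let `D → ∞`.
-/

set_option autoImplicit false

open scoped ENNReal NNReal

namespace Pool.Agent.Results.MP_40554b_lc.ServerEquivalence

open Pool.Agent.H515R3.PM Filter

theorem result :
    (∀ k : ℕ, 1 ≤ k → S k ≤ R k ∧ R k ≤ 3 * S k) ∧
    ((∀ ε : ℝ≥0, 0 < ε → ∀ᶠ k : ℕ in atTop, R k ≤ ε * k) ↔
      (∀ ε : ℝ≥0, 0 < ε → ∀ᶠ k : ℕ in atTop, S k ≤ ε * k)) := by
  refine ⟨fun k hk => ⟨le_R k hk, R_le k hk⟩, fun h ε hε => ?_, fun h ε hε => ?_⟩
  · filter_upwards [h ε hε, eventually_ge_atTop 1] with k hk hk1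
    exact (le_R k hk1).trans hk
  · have hε3 : 0 < ε / 3 := by positivity
    filter_upwards [h (ε / 3) hε3, eventually_ge_atTop 1] with k hk hk1
    calc R k ≤ 3 * S k := R_le k hk1
      _ ≤ 3 * (((ε / 3 : ℝ≥0) : ℝ≥0∞) * k) := by gcongr
      _ = ((3 * (ε / 3) : ℝ≥0) : ℝ≥0∞) * k := by
          push_cast
          ring
      _ = ε * k := by
          rw [mul_div_cancel₀ ε (by norm_num : (3 : ℝ≥0) ≠ 0)]

end Pool.Agent.Results.MP_40554b_lc.ServerEquivalence
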